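import Mathlib

/-! Quantile functions (auxiliary to task QN of helper923). -/

set_option autoImplicit false

namespace Pool.Agent.H339R2.FZQ

open MeasureTheory Set Filter Topology

/-- the tail -/
noncomputable def N (μ : Measure ℝ) (s : ℝ) : ℝ := (μ (Ioi s)).toReal

variable {μ : Measure ℝ} [IsFiniteMeasure μ]

omit [IsFiniteMeasure μ] in
theorem N_nonneg (s : ℝ) : 0 ≤ N μ s := ENNReal.toReal_nonneg

theorem N_anti {s t : ℝ} (h : s ≤ t) : N μ t ≤ N μ s :=
  ENNReal.toReal_mono (measure_ne_top _ _) (measure_mono (Ioi_subset_Ioi h))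

theorem N_right {s r : ℝ} (h : r < N μ s) : ∃ t, s < t ∧ r < N μ t := by
  have hU : Ioi s = ⋃ n : ℕ, Ioi (s + 1 / ((n : ℝ) + 1)) := by
    ext x
    simp only [mem_Ioi, mem_iUnion]
    constructor
    · intro hx
      obtain ⟨n, hn⟩ := exists_nat_one_div_lt (sub_pos.2 hx)
      exact ⟨n, by linarith⟩
    · rintro ⟨n, hn⟩
      have : (0 : ℝ) < 1 / ((n : ℝ) + 1) := by positivity
      linarith
  have hmono : Monotone fun n : ℕ => Ioi (s + 1 / ((n : ℝ) + 1)) := by
    intro m n hmn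
    apply Ioi_subset_Ioi
    have : 1 / ((n : ℝ) + 1) ≤ 1 / ((m : ℝ) + 1) := by
      apply one_div_le_one_div_of_le (by positivity)
      exact_mod_cast Nat.succ_le_succ hmn
    linarith
  have ht : Tendsto (fun n : ℕ => N μ (s + 1 / ((n : ℝ) + 1))) atTop (𝓝 (N μ s)) := by
    unfold N
    rw [hU]
    exact (ENNReal.tendsto_toReal (measure_ne_top _ _)).comp
      (tendsto_measure_iUnion_atTop hmono)
  obtain ⟨n, hn⟩ := (ht.eventually (lt_mem_nhds h)).exists
  exact ⟨_, by linarith [show (0 : ℝ) < 1 / ((n : ℝ) + 1) by positivity], hn⟩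

/-- the quantile function -/
noncomputable def Q (μ : Measure ℝ) (r : ℝ) : ℝ := sSup {s | s ∈ Icc (0 : ℝ) 1 ∧ (s = 0 ∨ r < N μ s)}

omit [IsFiniteMeasure μ] in
theorem Q_bdd (r : ℝ) : BddAbove {s | s ∈ Icc (0 : ℝ) 1 ∧ (s = 0 ∨ r < N μ s)} :=
  ⟨1, fun _ hs => hs.1.2⟩

omit [IsFiniteMeasure μ] in
theorem Q_ne (r : ℝ) : {s | s ∈ Icc (0 : ℝ) 1 ∧ (s = 0 ∨ r < N μ s)}.Nonempty :=
  ⟨0, ⟨le_rfl, zero_le_one⟩, Or.inl rfl⟩

omit [IsFiniteMeasure μ] in
theorem Q_nonneg (r : ℝ) : 0 ≤ Q μ r := le_csSup (Q_bdd r) ⟨⟨le_rfl, zero_le_one⟩, Or.inl rfl⟩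

omit [IsFiniteMeasure μ] in
theorem Q_le_one (r : ℝ) : Q μ r ≤ 1 := csSup_le (Q_ne r) fun _ hs => hs.1.2

theorem lt_Q (h1 : N μ 1 = 0) {r s : ℝ} (hr : 0 ≤ r) (hs : 0 ≤ s) :
    s < Q μ r ↔ r < N μ s := by
  constructor
  · intro h
    obtain ⟨t, ⟨-, ht⟩, hst⟩ := exists_lt_of_lt_csSup (Q_ne r) h
    rcases ht with rfl | ht
    · linarith
    · exact ht.trans_le (N_anti hst.le)
  · intro h
    obtain ⟨t, hst, ht⟩ := N_right h
    have ht1 : t ≤ 1 := by
      by_contra hc
      have := N_anti (μ := μ) (not_le.1 hc).le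
      linarith
    exact hst.trans_le (le_csSup (Q_bdd r) ⟨⟨by linarith, ht1⟩, Or.inr ht⟩)

omit [IsFiniteMeasure μ] in
theorem Q_anti {r r' : ℝ} (h : r ≤ r') : Q μ r' ≤ Q μ r := by
  apply csSup_le_csSup (Q_bdd r) (Q_ne r')
  rintro s ⟨hs, hs'⟩
  exact ⟨hs, hs'.imp id fun h' => h.trans_lt h'⟩

/-- continuity -/
theorem Q_cont (h1 : N μ 1 = 0) (hst : ∀ s t, 0 ≤ s → s < t → t ≤ 1 → N μ t < N μ s) :
    ContinuousOn (Q μ) (Ici 0) := by
  intro r hr
  rw [ContinuousWithinAt, tendsto_order]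
  constructor
  · intro s hs
    rcases lt_or_ge s 0 with h0 | h0
    · exact Eventually.of_forall fun r' => h0.trans_le (Q_nonneg r')
    · have h2 := (lt_Q h1 hr h0).1 hs
      filter_upwards [self_mem_nhdsWithin, mem_nhdsWithin_of_mem_nhds (gt_mem_nhds h2)] with r' h3 h4
      exact (lt_Q h1 h3 h0).2 h4
  · intro s hs
    rcases lt_or_ge 1 s with h0 | h0
    · exact Eventually.of_forall fun r' => (Q_le_one r').trans_lt h0
    · obtain ⟨u, hu1, hu2⟩ := exists_between hs
      obtain ⟨v, hv1, hv2⟩ := exists_between hu2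
      have hu0 : 0 ≤ u := (Q_nonneg r).trans hu1.le
      have h3 : N μ v < r ∨ N μ v < N μ u := Or.inr (hst u v hu0 hv1 (hv2.le.trans h0))
      have h4 : N μ u ≤ r := by
        by_contra hc
        have := (lt_Q h1 hr hu0).2 (not_le.1 hc)
        linarith
      have h5 : N μ v < r := by
        rcases h3 with h3 | h3
        · exact h3
        · linarith
      filter_upwards [self_mem_nhdsWithin, mem_nhdsWithin_of_mem_nhds (lt_mem_nhds h5)] with r' h6 h7
      refine lt_of_le_of_lt ?_ hv2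
      by_contra hc
      have := (lt_Q h1 h6 (hu0.trans hv1.le)).1 (not_le.1 hc)
      linarith

theorem vol_pre {A : Set ℝ} (hA : MeasurableSet A) (h : A ⊆ Icc 0 1) :
    (volume : Measure unitInterval) ((fun x : unitInterval => (x : ℝ)) ⁻¹' A) = volume A := by
  have h1 : (volume : Measure unitInterval).map (fun x : unitInterval => (x : ℝ)) =
      volume.restrict (Icc (0 : ℝ) 1) := map_comap_subtype_coe measurableSet_Icc volume
  rw [← Measure.map_apply measurable_subtype_coe hA, h1, Measure.restrict_apply hA,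
    inter_eq_left.2 h]

/-- the law of the function `x ↦ Q(2|x - c|)` -/
theorem law {μ : Measure ℝ} [IsProbabilityMeasure μ] (h1 : N μ 1 = 0) (h0 : μ (Iio 0) = 0)
    (hst : ∀ s t, 0 ≤ s → s < t → t ≤ 1 → N μ t < N μ s) (c : ℝ) (hc : 0 ≤ c - N μ 0 / 2)
    (hc' : c + N μ 0 / 2 ≤ 1) :
    (volume : Measure unitInterval).map (fun x : unitInterval => Q μ (2 * |(x : ℝ) - c|)) = μ := by
  have hcont : Continuous fun x : unitInterval => Q μ (2 * |(x : ℝ) - c|) := by
    refine (Q_cont h1 hst).comp_continuous (by fun_prop) fun x => ?_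
    show (0 : ℝ) ≤ 2 * |(x : ℝ) - c|
    positivity
  have hm := hcont.measurable
  have : IsProbabilityMeasure
      ((volume : Measure unitInterval).map (fun x : unitInterval => Q μ (2 * |(x : ℝ) - c|))) :=
    Measure.isProbabilityMeasure_map hm.aemeasurable
  have key : ∀ s : ℝ, ((volume : Measure unitInterval).map
      (fun x : unitInterval => Q μ (2 * |(x : ℝ) - c|))) (Ioi s) = μ (Ioi s) := by
    intro s
    rw [Measure.map_apply hm measurableSet_Ioi]
    rcases lt_or_ge s 0 with hs | hs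
    · have e1 : (fun x : unitInterval => Q μ (2 * |(x : ℝ) - c|)) ⁻¹' Ioi s = univ := by
        ext x
        simp only [mem_preimage, mem_Ioi, mem_univ, iff_true]
        exact hs.trans_le (Q_nonneg _)
      have e2 : μ (Ioi s) = 1 := by
        have e3 : μ (Ioi s)ᶜ = 0 := by
          refine measure_mono_null ?_ h0
          intro x hx
          rw [mem_compl_iff, mem_Ioi, not_lt] at hx
          exact lt_of_le_of_lt hx hs
        rwa [prob_compl_eq_zero_iff measurableSet_Ioi] at e3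
      rw [e1, e2, measure_univ]
    · have e1 : (fun x : unitInterval => Q μ (2 * |(x : ℝ) - c|)) ⁻¹' Ioi s =
          (fun x : unitInterval => (x : ℝ)) ⁻¹' (Ioo (c - N μ s / 2) (c + N μ s / 2)) := by
        ext x
        simp only [mem_preimage, mem_Ioi, mem_Ioo]
        rw [lt_Q h1 (by positivity) hs]
        constructor
        · intro h
          have h2 : |(x : ℝ) - c| < N μ s / 2 := by linarith
          rw [abs_lt] at h2
          constructor <;> linarith [h2.1, h2.2]
        · intro h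
          have h2 : |(x : ℝ) - c| < N μ s / 2 := by
            rw [abs_lt]
            constructor <;> linarith [h.1, h.2]
          linarith
      have hle : N μ s ≤ N μ 0 := N_anti hs
      rw [e1, vol_pre measurableSet_Ioo, Real.volume_Ioo]
      · have e2 : c + N μ s / 2 - (c - N μ s / 2) = N μ s := by ring
        rw [e2]
        unfold N
        exact ENNReal.ofReal_toReal (measure_ne_top _ _)
      · intro x hx
        exact ⟨by linarith [hx.1], by linarith [hx.2]⟩
  refine Measure.ext_of_Iic _ _ fun a => ?_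
  rw [← compl_Ioi, prob_compl_eq_one_sub measurableSet_Ioi, prob_compl_eq_one_sub measurableSet_Ioi,
    key a]

/-- the family of orthogonal functions with the law `μ` -/
theorem family {μ : Measure ℝ} [IsProbabilityMeasure μ] (h1 : N μ 1 = 0) (h0 : μ (Iio 0) = 0)
    (hst : ∀ s t, 0 ≤ s → s < t → t ≤ 1 → N μ t < N μ s) (n : ℕ) (hn : ((n : ℝ) + 1) * N μ 0 ≤ 1) :
    ∃ f : Fin (n + 1) → C(unitInterval, ℝ), (∀ i x, 0 ≤ f i x ∧ f i x ≤ 1) ∧
      (∀ i j, i ≠ j → ∀ x, f i x * f j x = 0) ∧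
      ∀ i, (volume : Measure unitInterval).map (f i) = μ := by
  have hn0 : (0 : ℝ) < (n : ℝ) + 1 := by positivity
  have hN : N μ 0 ≤ 1 / ((n : ℝ) + 1) := by
    rw [le_div_iff₀ hn0]
    linarith
  have hN0 := N_nonneg (μ := μ) 0
  let c : Fin (n + 1) → ℝ := fun i => (2 * (i : ℝ) + 1) / (2 * ((n : ℝ) + 1))
  have hcont : ∀ i, Continuous fun x : unitInterval => Q μ (2 * |(x : ℝ) - c i|) := by
    intro i
    refine (Q_cont h1 hst).comp_continuous (by fun_prop) fun x => ?_
    show (0 : ℝ) ≤ 2 * |(x : ℝ) - c i|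
    positivity
  refine ⟨fun i => ⟨_, hcont i⟩, fun i x => ⟨Q_nonneg _, Q_le_one _⟩, ?_, ?_⟩
  · intro i j hij x
    show Q μ (2 * |(x : ℝ) - c i|) * Q μ (2 * |(x : ℝ) - c j|) = 0
    by_contra hne
    have hi : 0 < Q μ (2 * |(x : ℝ) - c i|) :=
      lt_of_le_of_ne (Q_nonneg _) (fun h => hne (by rw [← h, zero_mul]))
    have hj : 0 < Q μ (2 * |(x : ℝ) - c j|) :=
      lt_of_le_of_ne (Q_nonneg _) (fun h => hne (by rw [← h, mul_zero]))
    rw [lt_Q h1 (by positivity) le_rfl] at hi hj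
    have h2 : |c i - c j| ≤ |(x : ℝ) - c i| + |(x : ℝ) - c j| := by
      have := abs_sub_le (c i) (x : ℝ) (c j)
      rwa [abs_sub_comm (c i) (x : ℝ)] at this
    have h3 : 1 / ((n : ℝ) + 1) ≤ |c i - c j| := by
      have e : c i - c j = ((i : ℝ) - j) * (1 / ((n : ℝ) + 1)) := by
        show (2 * (i : ℝ) + 1) / (2 * ((n : ℝ) + 1)) - (2 * (j : ℝ) + 1) / (2 * ((n : ℝ) + 1)) = _
        field_simp
        ring
      rw [e, abs_mul, abs_of_pos (show (0 : ℝ) < 1 / ((n : ℝ) + 1) by positivity)]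
      have h4 : (1 : ℝ) ≤ |(i : ℝ) - j| := by
        have h5 : (i : ℤ) - (j : ℤ) ≠ 0 := by
          intro h6
          apply hij
          apply Fin.ext
          omega
        have h6 := Int.one_le_abs h5
        have h7 : ((|(i : ℤ) - (j : ℤ)| : ℤ) : ℝ) = |(i : ℝ) - j| := by push_cast; rfl
        rw [← h7]
        exact_mod_cast h6
      nlinarith [show (0 : ℝ) < 1 / ((n : ℝ) + 1) by positivity]
    linarith
  · intro i
    have hi : (i : ℝ) ≤ n := by exact_mod_cast Nat.lt_succ_iff.1 i.2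
    have hi0 : (0 : ℝ) ≤ i := Nat.cast_nonneg _
    refine law h1 h0 hst (c i) ?_ ?_
    · have : 1 / ((n : ℝ) + 1) / 2 ≤ c i := by
        show _ ≤ (2 * (i : ℝ) + 1) / (2 * ((n : ℝ) + 1))
        rw [div_div, mul_comm ((n : ℝ) + 1) 2]
        apply div_le_div_of_nonneg_right _ (by positivity)
        linarith
      linarith
    · have : c i + 1 / ((n : ℝ) + 1) / 2 ≤ 1 := by
        show (2 * (i : ℝ) + 1) / (2 * ((n : ℝ) + 1)) + _ ≤ 1
        rw [div_div, mul_comm ((n : ℝ) + 1) 2, ← add_div, div_le_one (by positivity)]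
        linarith
      linarith

end Pool.Agent.H339R2.FZQ
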