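import Pool.Agent.H923R2.FZ.Stubs1
import Pool.Agent.H339R2.FZ_QNaux

/-! Task QN of project FZ: orthogonal functions on `[0,1]` with a given law. -/

namespace Pool.Agent.H923R2.FZ.T_QN

open MeasureTheory Set Pool.Agent.H339R2.FZQ

theorem t_QN : S_QN := by
  intro μ _ hIcc hfull n hn
  have hcompl : μ (Icc (0 : ℝ) 1)ᶜ = 0 := by
    rw [prob_compl_eq_zero_iff measurableSet_Icc]; exact hIcc
  have h1 : N μ 1 = 0 := by
    have : μ (Ioi (1 : ℝ)) = 0 := by
      refine measure_mono_null ?_ hcompl
      intro x hx hx2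
      exact absurd hx2.2 (not_le.2 hx)
    simp [N, this]
  have h0 : μ (Iio (0 : ℝ)) = 0 := by
    refine measure_mono_null ?_ hcompl
    intro x hx hx2
    exact absurd hx2.1 (not_le.2 hx)
  have hst : ∀ s t, 0 ≤ s → s < t → t ≤ 1 → N μ t < N μ s := by
    intro s t hs hstt ht
    have h2 := hfull s t hs hstt ht
    unfold N
    have h3 : μ (Ioi t) + μ (Ioo s t) ≤ μ (Ioi s) := by
      rw [← measure_union ?_ measurableSet_Ioo]
      · apply measure_mono
        intro x hx
        rcases hx with hx | hx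
        · exact lt_trans hstt hx
        · exact hx.1
      · rw [Set.disjoint_left]
        intro x hx hx2
        exact absurd hx2.2 (not_lt.2 (le_of_lt hx))
    have h4 : μ (Ioi t) < μ (Ioi s) := by
      refine lt_of_lt_of_le ?_ h3
      exact ENNReal.lt_add_right (measure_ne_top μ _) h2.ne'
    exact (ENNReal.toReal_lt_toReal (measure_ne_top μ _) (measure_ne_top μ _)).2 h4
  have hn' : ((n : ℝ) + 1) * N μ 0 ≤ 1 := by
    have := ENNReal.toReal_mono ENNReal.one_ne_top hn
    rw [ENNReal.toReal_mul] at this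
    simpa [N, ENNReal.toReal_add] using this
  obtain ⟨f, hf1, hf2, hf3⟩ := family h1 h0 hst n hn'
  refine ⟨f, fun i x => hf1 i x, hf2, ?_⟩
  intro i F hF
  rw [← hf3 i, integral_map (f i).continuous.measurable.aemeasurable hF.aestronglyMeasurable]

end Pool.Agent.H923R2.FZ.T_QN
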