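import Mathlib
import Pool.Agent.H378R2.M6d
import Pool.Agent.H378R2.M6e
import Pool.Agent.Helper923.PNTQ

/-! Module F2 of TEAM PG (helper312): covering with a spread out tuple. -/

open Finset Filter

namespace Pool.Agent.H339R2.CovM

/-- one greedy step avoiding `K` classes -/
lemma step {K : ℕ} (t : Fin K → ℕ) (U : Finset ℕ) (p : ℕ) (hp : K < p) :
    ∃ r, r < p ∧ (∀ j, t j % p ≠ r) ∧
      ((U.filter (fun s => ∀ j, s % p ≠ t j % p)).card : ℝ) ≤
        (p : ℝ) * ((U.filter (fun s => s % p = r)).card : ℝ) := by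
  classical
  have hp0 : 0 < p := by omega
  set A : Finset ℕ := (range p).filter (fun r => ∀ j, t j % p ≠ r) with hA
  have hAne : A.Nonempty := by
    by_contra hcon
    rw [not_nonempty_iff_eq_empty] at hcon
    have h1 : range p ⊆ univ.image (fun j => t j % p) := by
      intro r hr
      by_contra h2
      have : r ∈ A := by
        rw [hA, mem_filter]
        refine ⟨hr, fun j hj => h2 ?_⟩
        rw [mem_image]
        exact ⟨j, mem_univ _, hj⟩
      rw [hcon] at this
      simp at this
    have h2 := card_le_card h1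
    rw [card_range] at h2
    have h3 : (univ.image (fun j => t j % p)).card ≤ K := by
      refine card_image_le.trans ?_
      simp
    omega
  have hcard : (U.filter (fun s => ∀ j, s % p ≠ t j % p)).card =
      ∑ r ∈ A, ((U.filter (fun s => ∀ j, s % p ≠ t j % p)).filter (fun s => s % p = r)).card := by
    apply card_eq_sum_card_fiberwise
    intro s hs
    rw [mem_coe, mem_filter] at hs
    rw [mem_coe, hA, mem_filter, mem_range]
    exact ⟨Nat.mod_lt _ hp0, fun j h => hs.2 j h.symm⟩
  by_contra hcon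
  push Not at hcon
  have hlt : ∀ r ∈ A, ((U.filter (fun s => s % p = r)).card : ℝ) <
      ((U.filter (fun s => ∀ j, s % p ≠ t j % p)).card : ℝ) / p := by
    intro r hr
    rw [hA, mem_filter, mem_range] at hr
    have := hcon r hr.1 hr.2
    rw [lt_div_iff₀ (by exact_mod_cast hp0)]
    linarith
  have h4 : ((U.filter (fun s => ∀ j, s % p ≠ t j % p)).card : ℝ) ≤
      ∑ r ∈ A, ((U.filter (fun s => s % p = r)).card : ℝ) := by
    rw [hcard]
    push_cast
    apply sum_le_sum
    intro r _
    have : ((U.filter (fun s => ∀ j, s % p ≠ t j % p)).filter (fun s => s % p = r)) ⊆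
        U.filter (fun s => s % p = r) := by
      intro s hs
      rw [mem_filter, mem_filter] at hs
      rw [mem_filter]
      exact ⟨hs.1.1, hs.2⟩
    exact_mod_cast card_le_card this
  have h5 := sum_lt_sum_of_nonempty hAne hlt
  rw [sum_const, nsmul_eq_mul] at h5
  have h6 : (A.card : ℝ) ≤ p := by
    have : A.card ≤ (range p).card := card_filter_le _ _
    rw [card_range] at this
    exact_mod_cast this
  have hp1 : (0 : ℝ) < p := by exact_mod_cast hp0
  have h7 : (A.card : ℝ) * (((U.filter (fun s => ∀ j, s % p ≠ t j % p)).card : ℝ) / p) ≤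
      ((U.filter (fun s => ∀ j, s % p ≠ t j % p)).card : ℝ) := by
    rw [mul_div_assoc', div_le_iff₀ hp1, mul_comm]
    exact mul_le_mul_of_nonneg_left h6 (Nat.cast_nonneg _)
  linarith

lemma greedyT {K : ℕ} (t : Fin K → ℕ) (V : Finset ℕ) (c : ℝ) (hc : 0 ≤ c) (T : Finset ℕ)
    (hT : ∀ p ∈ T, K < p ∧ 2 ≤ p)
    (hN : ∀ p ∈ T, ((V.filter (fun s => ∃ j, s % p = t j % p)).card : ℝ) ≤ c / ((p : ℝ) - 1)) :
    ∃ b : ℕ → ℕ, (∀ p ∈ T, ∀ j, t j % p ≠ b p % p) ∧
      ((V.filter (fun s => ∀ p ∈ T, ¬ s % p = b p % p)).card : ℝ) ≤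
        V.card * ∏ p ∈ T, (1 - 1 / (p : ℝ)) + ∑ p ∈ T, c / (p * ((p : ℝ) - 1)) := by
  classical
  induction T using Finset.induction_on with
  | empty => exact ⟨fun _ => 1, by simp, by simp⟩
  | insert p T hpT ih =>
    obtain ⟨b, hb1, hb2⟩ := ih (fun q hq => hT q (mem_insert_of_mem hq))
      (fun q hq => hN q (mem_insert_of_mem hq))
    set U := V.filter (fun s => ∀ q ∈ T, ¬ s % q = b q % q) with hU
    have hp2 := (hT p (mem_insert_self _ _)).2
    have hpK := (hT p (mem_insert_self _ _)).1
    have hp1 : (1 : ℝ) < p := by exact_mod_cast hp2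
    obtain ⟨r, hrp, hrt, hr⟩ := step t U p hpK
    refine ⟨Function.update b p r, ?_, ?_⟩
    · intro q hq
      rcases mem_insert.1 hq with h | h
      · subst h
        rw [Function.update_self, Nat.mod_eq_of_lt hrp]
        exact hrt
      · have hqp : q ≠ p := fun h2 => hpT (h2 ▸ h)
        rw [Function.update_of_ne hqp]
        exact hb1 q h
    · have h1 : V.filter (fun s => ∀ q ∈ insert p T, ¬ s % q = Function.update b p r q % q) =
          U.filter (fun s => ¬ s % p = r) := by
        ext s
        simp only [hU, mem_filter, mem_insert, forall_eq_or_imp, Function.update_self,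
          Nat.mod_eq_of_lt hrp]
        constructor
        · rintro ⟨a1, a2, a3⟩
          refine ⟨⟨a1, fun q hq => ?_⟩, a2⟩
          have hqp : q ≠ p := fun h2 => hpT (h2 ▸ hq)
          have := a3 q hq
          rwa [Function.update_of_ne hqp] at this
        · rintro ⟨⟨a1, a2⟩, a3⟩
          refine ⟨a1, a3, fun q hq => ?_⟩
          have hqp : q ≠ p := fun h2 => hpT (h2 ▸ hq)
          rw [Function.update_of_ne hqp]
          exact a2 q hq
      rw [h1]
      have h2 : ((U.filter (fun s => s % p = r)).card : ℝ) +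
          ((U.filter (fun s => ¬ s % p = r)).card : ℝ) = U.card := by
        exact_mod_cast Finset.card_filter_add_card_filter_not (s := U) (fun s => s % p = r)
      have h3 : ((U.filter (fun s => ∃ j, s % p = t j % p)).card : ℝ) ≤ c / ((p : ℝ) - 1) := by
        refine le_trans ?_ (hN p (mem_insert_self _ _))
        have : U.filter (fun s => ∃ j, s % p = t j % p) ⊆
            V.filter (fun s => ∃ j, s % p = t j % p) :=
          Finset.filter_subset_filter _ (Finset.filter_subset _ _)
        exact_mod_cast Finset.card_le_card this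
      have h3' : ((U.filter (fun s => ∃ j, s % p = t j % p)).card : ℝ) +
          ((U.filter (fun s => ∀ j, s % p ≠ t j % p)).card : ℝ) = U.card := by
        have h := Finset.card_filter_add_card_filter_not (s := U) (fun s => ∃ j, s % p = t j % p)
        have h' : U.filter (fun s => ¬ ∃ j, s % p = t j % p) =
            U.filter (fun s => ∀ j, s % p ≠ t j % p) := by
          apply filter_congr
          intro s _
          push Not
          rfl
        rw [h'] at h
        exact_mod_cast h
      rw [Finset.prod_insert hpT, Finset.sum_insert hpT]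
      set u := (U.card : ℝ) with hu
      have hu0 : 0 ≤ u := Nat.cast_nonneg _
      have hpp : 0 < (p : ℝ) - 1 := by linarith
      have hp0 : 0 < (p : ℝ) := by linarith
      have h4 : (u - c / ((p : ℝ) - 1)) / p ≤ ((U.filter (fun s => s % p = r)).card : ℝ) := by
        rw [div_le_iff₀ hp0]; linarith
      have h5 : ((U.filter (fun s => ¬ s % p = r)).card : ℝ) ≤
          u - (u - c / ((p : ℝ) - 1)) / p := by
        linarith
      have h6 : u - (u - c / ((p : ℝ) - 1)) / p = u * (1 - 1 / (p : ℝ)) + c / (p * ((p : ℝ) - 1)) := by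
        have : (p : ℝ) ≠ 0 := by linarith
        have : (p : ℝ) - 1 ≠ 0 := by linarith
        field_simp
        ring
      have h9 : 0 ≤ 1 - 1 / (p : ℝ) := by
        have : 1 / (p : ℝ) ≤ 1 := by rw [div_le_one (by linarith)]; linarith
        linarith
      have h10 : 1 - 1 / (p : ℝ) ≤ 1 := by
        have : 0 ≤ 1 / (p : ℝ) := by positivity
        linarith
      have h11 : 0 ≤ ∑ q ∈ T, c / (q * ((q : ℝ) - 1)) := by
        apply Finset.sum_nonneg
        intro q hq
        have : (2 : ℝ) ≤ q := by exact_mod_cast (hT q (mem_insert_of_mem hq)).2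
        apply div_nonneg hc
        apply mul_nonneg <;> linarith
      calc ((U.filter (fun s => ¬ s % p = r)).card : ℝ)
          ≤ u * (1 - 1 / (p : ℝ)) + c / (p * ((p : ℝ) - 1)) := h5.trans h6.le
        _ ≤ (V.card * ∏ q ∈ T, (1 - 1 / (q : ℝ)) + ∑ q ∈ T, c / (q * ((q : ℝ) - 1))) *
              (1 - 1 / (p : ℝ)) + c / (p * ((p : ℝ) - 1)) := by gcongr
        _ ≤ V.card * ((1 - 1 / (p : ℝ)) * ∏ q ∈ T, (1 - 1 / (q : ℝ))) +
              (c / (p * ((p : ℝ) - 1)) + ∑ q ∈ T, c / (q * ((q : ℝ) - 1))) := by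
            have h12 := mul_le_mul_of_nonneg_left h10 h11
            nlinarith

/-- primes in a fixed class: an upper bound of the right order, uniform over the classes -/
lemma ap_upper (q : ℕ) (hq : 1 ≤ q) : ∃ x0 : ℕ, 2 ≤ x0 ∧ ∀ x : ℕ, x0 ≤ x → ∀ a : ℕ, a.Coprime q →
    ∀ y : ℕ, 2 ≤ y →
    (((Icc 1 x).filter (fun p => p.Prime ∧ y < p ∧ p % q = a % q)).card : ℝ) ≤
      2 * x / ((q.totient : ℝ) * Real.log y) := by
  classical
  have : NeZero q := ⟨by omega⟩
  have hφ : 0 < (q.totient : ℝ) := by exact_mod_cast Nat.totient_pos.2 (by omega)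
  -- for each unit class
  have h1 : ∀ a : (ZMod q)ˣ, ∀ᶠ x : ℕ in atTop,
      ∑ k ∈ Icc 1 x, ArithmeticFunction.vonMangoldt.residueClass (a : ZMod q) k ≤
        2 * x / (q.totient : ℝ) := by
    intro a
    have h := (Pool.Agent.Helper923.H403.PNT602.pnt_residueClass a.isUnit).comp
      (tendsto_natCast_atTop_atTop (R := ℝ))
    have h2 : ∀ᶠ x : ℕ in atTop, _ := h.eventually_lt_const
      (show (q.totient : ℝ)⁻¹ < 2 * (q.totient : ℝ)⁻¹ by
        have : 0 < (q.totient : ℝ)⁻¹ := inv_pos.2 hφ
        linarith)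
    filter_upwards [h2, eventually_ge_atTop 1] with x hx hx1
    have hx0 : (0 : ℝ) < x := by exact_mod_cast hx1
    simp only [Function.comp, Nat.floor_natCast] at hx
    rw [div_lt_iff₀ hx0] at hx
    calc _ ≤ 2 * (q.totient : ℝ)⁻¹ * x := hx.le
      _ = 2 * x / (q.totient : ℝ) := by rw [div_eq_mul_inv]; ring
  have h2 : ∀ᶠ x : ℕ in atTop, ∀ a : (ZMod q)ˣ,
      ∑ k ∈ Icc 1 x, ArithmeticFunction.vonMangoldt.residueClass (a : ZMod q) k ≤
        2 * x / (q.totient : ℝ) := by
    rw [Filter.eventually_all]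
    exact h1
  obtain ⟨x0, hx0⟩ := eventually_atTop.1 h2
  refine ⟨max x0 2, le_max_right _ _, ?_⟩
  intro x hx a ha y hy
  have hly : 0 < Real.log y := Real.log_pos (by exact_mod_cast hy)
  have h3 := hx0 x ((le_max_left _ _).trans hx) (ZMod.unitOfCoprime a ha)
  rw [ZMod.coe_unitOfCoprime] at h3
  rw [le_div_iff₀ (by positivity)]
  have h4 : (((Icc 1 x).filter (fun p => p.Prime ∧ y < p ∧ p % q = a % q)).card : ℝ) * Real.log y ≤
      ∑ k ∈ Icc 1 x, ArithmeticFunction.vonMangoldt.residueClass (a : ZMod q) k := by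
    calc (((Icc 1 x).filter (fun p => p.Prime ∧ y < p ∧ p % q = a % q)).card : ℝ) * Real.log y
        = ∑ p ∈ (Icc 1 x).filter (fun p => p.Prime ∧ y < p ∧ p % q = a % q), Real.log y := by
          rw [sum_const, nsmul_eq_mul]
      _ ≤ ∑ p ∈ (Icc 1 x).filter (fun p => p.Prime ∧ y < p ∧ p % q = a % q),
            ArithmeticFunction.vonMangoldt.residueClass (a : ZMod q) p := by
          apply sum_le_sum
          intro p hp
          obtain ⟨hp0, hp1, hp2, hp3⟩ := mem_filter.1 hp
          have hcast : ((p : ℕ) : ZMod q) = (a : ZMod q) := (ZMod.natCast_eq_natCast_iff' p a q).2 hp3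
          unfold ArithmeticFunction.vonMangoldt.residueClass
          rw [Set.indicator_of_mem (by simpa using hcast),
            ArithmeticFunction.vonMangoldt_apply_prime hp1]
          apply Real.log_le_log (by positivity)
          exact_mod_cast hp2.le
      _ ≤ ∑ k ∈ Icc 1 x, ArithmeticFunction.vonMangoldt.residueClass (a : ZMod q) k := by
          apply sum_le_sum_of_subset_of_nonneg (filter_subset _ _)
          intro k _ _
          exact ArithmeticFunction.vonMangoldt.residueClass_nonneg _ k
  calc _ = (q.totient : ℝ) * ((((Icc 1 x).filter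
        (fun p => p.Prime ∧ y < p ∧ p % q = a % q)).card : ℝ) * Real.log y) := by ring
    _ ≤ (q.totient : ℝ) * (2 * x / (q.totient : ℝ)) := by
        apply mul_le_mul_of_nonneg_left (h4.trans h3) hφ.le
    _ = 2 * x := by field_simp

end Pool.Agent.H339R2.CovM
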