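import Mathlib
import Pool.Agent.H339R2.CovA

open Finset Filter

namespace Pool.Agent.H339R2.CovM

open Pool.Agent.H378R2

lemma class_card_le {z y k D : ℕ} {S : Finset ℕ} {ps : ℕ} {Q : Finset ℕ} (h : Data z y k D S ps Q)
    (hps : ps = 1 ∨ ps.Prime) (q : ℕ) (hq : 1 ≤ q) (hqy : q ≤ y) (r : ℕ) (hr : r.Coprime q) (B : ℝ)
    (hB0 : 0 ≤ B)
    (hB : ∀ a : ℕ, a.Coprime q →
      (((Icc 1 k).filter (fun p => p.Prime ∧ y < p ∧ p % q = a % q)).card : ℝ) ≤ B) :
    (((VV Q k).filter (fun s => s % q = r % q)).card : ℝ) ≤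
      ((Nat.log 2 k : ℝ) + 1) * 2 ^ (z + 1) * Real.sqrt k + D * B + k * ∑ q ∈ S, (1 : ℝ) / q := by
  classical
  set W := (VV Q k).filter (fun s => s % q = r % q) with hW
  set V1 := ((range (Nat.log 2 k + 1)) ×ˢ (Nat.smoothNumbersUpTo k (z + 1))).image
    (fun x : ℕ × ℕ => ps ^ x.1 * x.2) with hV1
  set Em : ℕ → Finset ℕ := fun m => (Icc 1 k).filter
    (fun p => (p.Prime ∧ y < p) ∧ (m * p) % q = r % q) with hEm
  set V2 := (Icc 1 D).biUnion (fun m => (Em m).image (fun p => m * p)) with hV2
  set V3 := S.biUnion (fun q => (Icc 1 k).filter (fun s => q ∣ s)) with hV3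
  have hsub : W ⊆ V1 ∪ V2 ∪ V3 := by
    intro s hs
    rw [hW, mem_filter, VV, mem_filter] at hs
    obtain ⟨⟨hs1, hs2⟩, hsr⟩ := hs
    rw [mem_Icc] at hs1
    by_cases c2 : s ∈ V2
    · exact mem_union_left _ (mem_union_right _ c2)
    by_cases c3 : s ∈ V3
    · exact mem_union_right _ c3
    apply mem_union_left _ (mem_union_left _ _)
    have hprime : ∀ q, q.Prime → q ∣ s → q ≤ z ∨ q = ps := by
      intro p hp hps'
      have hpt : p ≤ k := (Nat.le_of_dvd (by omega) hps').trans hs1.2
      have hpy : p ≤ y := by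
        by_contra hcon
        push Not at hcon
        apply c2
        obtain ⟨m, hm⟩ := hps'
        rw [hV2, mem_biUnion]
        have hm0 : 1 ≤ m := by
          rcases Nat.eq_zero_or_pos m with h0 | h0
          · subst h0; simp at hm; omega
          · exact h0
        have hmD : m ≤ D := by
          by_contra hmD
          push Not at hmD
          have h1 : (D + 1) * (y + 1) ≤ m * p := Nat.mul_le_mul hmD hcon
          have h2 : m * p = s := by rw [hm, mul_comm]
          have h3 := h.hk
          nlinarith [hs1.2]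
        refine ⟨m, mem_Icc.2 ⟨hm0, hmD⟩, ?_⟩
        rw [mem_image]
        refine ⟨p, ?_, by rw [hm, mul_comm]⟩
        rw [hEm, mem_filter, mem_Icc]
        refine ⟨⟨hp.one_lt.le, hpt⟩, ⟨hp, hcon⟩, ?_⟩
        rw [mul_comm, ← hm]
        exact hsr
      by_cases hqz : p ≤ z
      · exact Or.inl hqz
      · right
        rcases h.hcov p hp (by omega) hpy with h4 | h4 | h4
        · exact absurd hps' (hs2 p h4)
        · exfalso
          apply c3
          rw [hV3, mem_biUnion]
          exact ⟨p, h4, mem_filter.2 ⟨mem_Icc.2 hs1, hps'⟩⟩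
        · exact h4
    rw [hV1, mem_image]
    rcases hps with hp1 | hpp
    · refine ⟨(0, s), ?_, by simp⟩
      rw [mem_product, mem_range, Nat.mem_smoothNumbersUpTo, Nat.mem_smoothNumbers']
      refine ⟨by simp, hs1.2, ?_⟩
      intro q hq hqs
      rcases hprime q hq hqs with h4 | h4
      · omega
      · exact absurd hq (by rw [h4, hp1]; exact Nat.not_prime_one)
    · obtain ⟨b, s', hns, hss⟩ := Nat.exists_eq_pow_mul_and_not_dvd (n := s) (by omega) ps
        hpp.ne_one
      refine ⟨(b, s'), ?_, hss.symm⟩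
      have hs'0 : 0 < s' := by
        rcases Nat.eq_zero_or_pos s' with h5 | h5
        · subst h5; simp at hns
        · exact h5
      have hs's : s' ≤ s := by
        rw [hss]; exact Nat.le_mul_of_pos_left _ (pow_pos hpp.pos b)
      rw [mem_product, mem_range, Nat.mem_smoothNumbersUpTo, Nat.mem_smoothNumbers']
      refine ⟨?_, hs's.trans hs1.2, ?_⟩
      · have h6 : 2 ^ b ≤ k := by
          calc 2 ^ b ≤ ps ^ b := Nat.pow_le_pow_left hpp.two_le b
            _ ≤ ps ^ b * s' := Nat.le_mul_of_pos_right _ hs'0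
            _ = s := hss.symm
            _ ≤ k := hs1.2
        have h7 : b ≤ Nat.log 2 k := Nat.le_log_of_pow_le (by norm_num) h6
        omega
      · intro q hq hqs'
        rcases hprime q hq (hss ▸ hqs'.mul_left _) with h4 | h4
        · omega
        · subst h4; exact absurd hqs' hns
  have hcard : W.card ≤ V1.card + V2.card + V3.card :=
    (Finset.card_le_card hsub).trans ((Finset.card_union_le _ _).trans
      (Nat.add_le_add_right (Finset.card_union_le _ _) _))
  have hc : (W.card : ℝ) ≤ V1.card + V2.card + V3.card := by exact_mod_cast hcard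
  refine hc.trans (add_le_add (add_le_add ?_ ?_) ?_)
  · -- V1
    have h1 : V1.card ≤ (Nat.log 2 k + 1) * (2 ^ (z + 1) * Nat.sqrt k) := by
      refine Finset.card_image_le.trans ?_
      rw [Finset.card_product, Finset.card_range]
      apply Nat.mul_le_mul_left
      refine (Nat.smoothNumbersUpTo_card_le k (z + 1)).trans ?_
      apply Nat.mul_le_mul_right
      apply Nat.pow_le_pow_right (by norm_num)
      calc (z + 1).primesBelow.card ≤ (range (z + 1)).card := Finset.card_le_card
            (Finset.filter_subset _ _)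
        _ = z + 1 := Finset.card_range _
    have h2 : (V1.card : ℝ) ≤ ((Nat.log 2 k : ℝ) + 1) * (2 ^ (z + 1) * (Nat.sqrt k : ℝ)) := by
      exact_mod_cast h1
    have h3 : (Nat.sqrt k : ℝ) ≤ Real.sqrt k := Real.nat_sqrt_le_real_sqrt
    refine h2.trans ?_
    rw [mul_assoc]
    gcongr
  · -- V2
    have hEB : ∀ m ∈ Icc 1 D, ((Em m).card : ℝ) ≤ B := by
      intro m _
      rcases (Em m).eq_empty_or_nonempty with h0 | ⟨p0, hp0⟩
      · rw [h0]; simpa using hB0
      · rw [hEm, mem_filter] at hp0
        obtain ⟨_, ⟨hp0p, hp0y⟩, hp0r⟩ := hp0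
        have hmc : m.Coprime q := by
          have h1 : (m * p0).Coprime q := by
            unfold Nat.Coprime
            rw [Nat.gcd_comm, Nat.gcd_rec, hp0r, ← Nat.gcd_rec, Nat.gcd_comm]
            exact hr
          exact Nat.Coprime.coprime_mul_right h1
        have hp0c : p0.Coprime q := by
          rw [hp0p.coprime_iff_not_dvd]
          intro hd
          have := Nat.le_of_dvd (by omega) hd
          omega
        refine le_trans ?_ (hB p0 hp0c)
        have hsub2 : Em m ⊆ (Icc 1 k).filter (fun p => p.Prime ∧ y < p ∧ p % q = p0 % q) := by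
          intro p hp
          rw [hEm, mem_filter] at hp
          rw [mem_filter]
          refine ⟨hp.1, hp.2.1.1, hp.2.1.2, ?_⟩
          have h5 : m * p ≡ m * p0 [MOD q] := by
            show (m * p) % q = (m * p0) % q
            rw [hp.2.2, hp0r]
          exact Nat.ModEq.cancel_left_of_coprime (by rw [Nat.gcd_comm]; exact hmc) h5
        exact_mod_cast card_le_card hsub2
    calc (V2.card : ℝ) ≤ ((∑ m ∈ Icc 1 D, ((Em m).image (fun p => m * p)).card : ℕ) : ℝ) := by
          exact_mod_cast card_biUnion_le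
      _ = ∑ m ∈ Icc 1 D, (((Em m).image (fun p => m * p)).card : ℝ) := by push_cast; rfl
      _ ≤ ∑ m ∈ Icc 1 D, B := by
          apply sum_le_sum
          intro m hm
          exact le_trans (by exact_mod_cast card_image_le) (hEB m hm)
      _ = D * B := by rw [sum_const, Nat.card_Icc, nsmul_eq_mul]; simp
  · -- V3
    have h1 : V3.card ≤ ∑ q ∈ S, k / q := by
      refine Finset.card_biUnion_le.trans (le_of_eq ?_)
      apply Finset.sum_congr rfl
      intro q _
      exact card_multiples k q
    calc (V3.card : ℝ) ≤ ((∑ q ∈ S, k / q : ℕ) : ℝ) := by exact_mod_cast h1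
      _ = ∑ q ∈ S, ((k / q : ℕ) : ℝ) := by push_cast; rfl
      _ ≤ ∑ q ∈ S, k * ((1 : ℝ) / q) := by
          apply Finset.sum_le_sum
          intro q _
          rw [mul_one_div]
          exact Nat.cast_div_le
      _ = k * ∑ q ∈ S, (1 : ℝ) / q := by rw [Finset.mul_sum]

end Pool.Agent.H339R2.CovM
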