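import Mathlib
import Pool.Agent.H378R2.Defs
import Pool.Agent.H339R2.CovB

open Finset Filter

namespace Pool.Agent.H339R2.CovM

open Pool.Agent.H378R2

/-- the primes of the modulus above `z` -/
noncomputable def QQ (X : ℝ) (S : Finset ℕ) (ps z : ℕ) : Finset ℕ := (PW X S ps).filter (fun p => z < p)

/-- number of multiples allowed -/
noncomputable def DD (T : ℝ) : ℕ := ⌈2000 * T⌉₊

/-- the constant of the counting lemma -/
noncomputable def CC (T : ℝ) : ℝ := 4 * DD T * T + 2

lemma CC_pos (T : ℝ) (hT : 1 ≤ T) : 0 < CC T := by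
  unfold CC
  have : 0 ≤ (DD T : ℝ) := Nat.cast_nonneg _
  positivity

lemma count (T : ℝ) (hT : 1 ≤ T) (z q : ℕ) (hz : 1 ≤ z) (hq : 1 ≤ q) : ∃ X0 : ℝ, ∀ X : ℝ, X0 ≤ X →
    ∀ (ps : ℕ) (S : Finset ℕ), (ps = 1 ∨ ps.Prime) → GoodS X S → ∀ r : ℕ, r.Coprime q →
    (((VV (QQ X S ps z) ⌊T * Real.log X⌋₊).filter (fun s => s % q = r % q)).card : ℝ) ≤
      CC T * (Real.log X / Real.log (Real.log X)) / (q.totient : ℝ) := by
  obtain ⟨x0, hx02, hx0⟩ := ap_upper q hq
  have hφ : 0 < (q.totient : ℝ) := by exact_mod_cast Nat.totient_pos.2 (by omega)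
  have hT0 : 0 < T := by linarith
  have hlogtop : Tendsto Real.log atTop atTop := Real.tendsto_log_atTop
  have hloglog : Tendsto (fun X => Real.log (Real.log X)) atTop atTop := hlogtop.comp hlogtop
  have hktop : Tendsto (fun X : ℝ => ⌊T * Real.log X⌋₊) atTop atTop :=
    tendsto_nat_floor_atTop.comp (hlogtop.const_mul_atTop hT0)
  have hytop : Tendsto (fun X : ℝ => yy X) atTop atTop :=
    tendsto_nat_floor_atTop.comp (hlogtop.atTop_div_const (by norm_num))
  -- smooth part is small
  have hsm : ∀ᶠ k : ℕ in atTop, 3 ≤ k ∧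
      ((Nat.log 2 k : ℝ) + 1) * 2 ^ (z + 1) * Real.sqrt k ≤
        (1 / (T * (q.totient : ℝ))) * (k / Real.log k) := by
    set A : ℝ := 4 * (2 : ℝ) ^ (z + 1) * (T * (q.totient : ℝ)) with hA
    have hA0 : 0 < A := by positivity
    have h1 := (isLittleO_log_rpow_atTop (show (0 : ℝ) < 1 / 4 by norm_num)).bound
      (show (0 : ℝ) < 1 / (A + 1) by positivity)
    have h2 := (tendsto_natCast_atTop_atTop (R := ℝ)).eventually h1
    filter_upwards [h2, eventually_ge_atTop 3] with t ht ht3
    refine ⟨ht3, ?_⟩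
    have ht0 : (3 : ℝ) ≤ t := by exact_mod_cast ht3
    have hl1 : 1 ≤ Real.log t := by
      rw [Real.le_log_iff_exp_le (by linarith)]
      have := Real.exp_one_lt_d9
      linarith
    rw [Real.norm_of_nonneg (by linarith), Real.norm_of_nonneg (by positivity)] at ht
    have h3 : (Nat.log 2 t : ℝ) * Real.log 2 ≤ Real.log t := by
      have h4 : 2 ^ (Nat.log 2 t) ≤ t := Nat.pow_log_le_self 2 (by omega)
      have h5 : ((2 : ℝ) ^ (Nat.log 2 t)) ≤ t := by exact_mod_cast h4
      have h6 := Real.log_le_log (by positivity) h5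
      rwa [Real.log_pow] at h6
    have h4 : (Nat.log 2 t : ℝ) + 1 ≤ 4 * Real.log t := by
      have := Real.log_two_gt_d9
      have h7 : (0 : ℝ) ≤ (Nat.log 2 t : ℝ) := Nat.cast_nonneg _
      nlinarith
    have h5 : (A + 1) * Real.log t ≤ (t : ℝ) ^ (1 / 4 : ℝ) := by
      rw [div_mul_eq_mul_div, one_mul, le_div_iff₀ (by positivity)] at ht
      linarith
    have h6 : (t : ℝ) ^ (1 / 4 : ℝ) * (t : ℝ) ^ (1 / 4 : ℝ) = Real.sqrt t := by
      rw [← Real.rpow_add (by linarith), Real.sqrt_eq_rpow]; norm_num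
    have h7 : Real.sqrt t * Real.sqrt t = t := Real.mul_self_sqrt (by linarith)
    have hlt : 0 < Real.log t := by linarith
    rw [one_div_mul_eq_div, le_div_iff₀ (by positivity), le_div_iff₀ hlt]
    have h8 : A * (Real.log t * Real.log t) ≤ Real.sqrt t := by
      calc A * (Real.log t * Real.log t) ≤ ((A + 1) * Real.log t) * ((A + 1) * Real.log t) := by
            have : A ≤ (A + 1) * (A + 1) := by nlinarith
            calc A * (Real.log t * Real.log t) ≤ ((A + 1) * (A + 1)) * (Real.log t * Real.log t) := by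
                  gcongr
              _ = _ := by ring
        _ ≤ (t : ℝ) ^ (1 / 4 : ℝ) * (t : ℝ) ^ (1 / 4 : ℝ) := by gcongr
        _ = Real.sqrt t := h6
    calc ((Nat.log 2 t : ℝ) + 1) * 2 ^ (z + 1) * Real.sqrt t * (T * (q.totient : ℝ)) * Real.log t
        ≤ (4 * Real.log t) * 2 ^ (z + 1) * Real.sqrt t * (T * (q.totient : ℝ)) * Real.log t := by
          gcongr
      _ = (A * (Real.log t * Real.log t)) * Real.sqrt t := by rw [hA]; ring
      _ ≤ Real.sqrt t * Real.sqrt t := by gcongr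
      _ = t := h7
  have hev : ∀ᶠ X : ℝ in atTop, (3 ≤ ⌊T * Real.log X⌋₊ ∧
      ((Nat.log 2 ⌊T * Real.log X⌋₊ : ℝ) + 1) * 2 ^ (z + 1) * Real.sqrt ⌊T * Real.log X⌋₊ ≤
        (1 / (T * (q.totient : ℝ))) * (⌊T * Real.log X⌋₊ / Real.log ⌊T * Real.log X⌋₊)) ∧
      x0 ≤ ⌊T * Real.log X⌋₊ ∧ z ≤ yy X ∧ q ≤ yy X ∧ 2 ≤ yy X ∧
      4 + 6 * T * (q.totient : ℝ) ≤ Real.log (Real.log X) ∧ 4000000 + 2 * T ≤ Real.log X := by
    filter_upwards [hktop.eventually hsm, hktop.eventually_ge_atTop x0, hytop.eventually_ge_atTop z,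
      hytop.eventually_ge_atTop q, hytop.eventually_ge_atTop 2,
      hloglog.eventually_ge_atTop (4 + 6 * T * (q.totient : ℝ)),
      hlogtop.eventually_ge_atTop (4000000 + 2 * T)] with X a1 a2 a3 a4 a5 a6 a7
    exact ⟨a1, a2, a3, a4, a5, a6, a7⟩
  obtain ⟨X0, hX0⟩ := eventually_atTop.1 hev
  refine ⟨X0, ?_⟩
  intro X hX ps S hps hS r hr
  obtain ⟨⟨b1, b2⟩, b3, b4, b5, b6, b7, b8⟩ := hX0 X hX
  set k := ⌊T * Real.log X⌋₊ with hk
  set L := Real.log X with hL
  have hL0 : 0 < L := by linarith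
  have hlL : 0 < Real.log L := by
    have : 0 ≤ 6 * T * (q.totient : ℝ) := by positivity
    linarith
  have hlL4 : 4 ≤ Real.log L := by
    have : 0 ≤ 6 * T * (q.totient : ℝ) := by positivity
    linarith
  have hkle : (k : ℝ) ≤ T * L := Nat.floor_le (by positivity)
  have hkge : L - 1 ≤ k := by
    have := Nat.lt_floor_add_one (T * L)
    rw [← hk] at this
    nlinarith
  have hk3 : (3 : ℝ) ≤ k := by exact_mod_cast b1
  have hlk0 : 0 < Real.log k := Real.log_pos (by linarith)
  have hlkt : (k : ℝ) / Real.log k ≤ T * (L / Real.log L) := by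
    -- monotonicity of x / log x
    have h1 : Real.log (T * L) / (T * L) ≤ Real.log k / k := by
      apply Real.log_div_self_antitoneOn _ _ hkle
      · show Real.exp 1 ≤ k
        have := Real.exp_one_lt_d9
        linarith
      · show Real.exp 1 ≤ T * L
        have := Real.exp_one_lt_d9
        linarith
    have h2 : 0 < Real.log (T * L) := Real.log_pos (by nlinarith)
    have h3 : (k : ℝ) / Real.log k ≤ (T * L) / Real.log (T * L) := by
      rw [div_le_div_iff₀ hlk0 h2]
      rw [div_le_div_iff₀ (by positivity) (by linarith)] at h1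
      linarith
    refine h3.trans ?_
    rw [mul_div_assoc']
    apply div_le_div_of_nonneg_left (by positivity) hlL
    apply Real.log_le_log hL0
    nlinarith
  have hyge : L / 2000 ≤ (yy X : ℝ) := by
    have h1 : L / 1000 < (yy X : ℝ) + 1 := Nat.lt_floor_add_one (L / 1000)
    linarith
  have hkD : k ≤ DD T * yy X := by
    have h2 : (k : ℝ) ≤ DD T * yy X := by
      have h3 : 2000 * T ≤ (DD T : ℝ) := Nat.le_ceil _
      calc (k : ℝ) ≤ T * L := hkle
        _ = (2000 * T) * (L / 2000) := by ring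
        _ ≤ DD T * yy X := by gcongr
    exact_mod_cast h2
  have hlogy : Real.log L / 2 ≤ Real.log (yy X) := by
    have h1 : Real.sqrt L ≤ L / 2000 := by
      have h2 : Real.sqrt L * Real.sqrt L = L := Real.mul_self_sqrt hL0.le
      have h3 : (2000 : ℝ) ≤ Real.sqrt L := by
        apply Real.le_sqrt_of_sq_le
        norm_num
        linarith
      nlinarith [Real.sqrt_nonneg L]
    calc Real.log L / 2 = Real.log (Real.sqrt L) := (Real.log_sqrt hL0.le).symm
      _ ≤ Real.log (yy X) := Real.log_le_log (Real.sqrt_pos.2 hL0) (h1.trans hyge)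
  have hD : Data z (yy X) k (DD T) S ps (QQ X S ps z) := by
    refine ⟨hz, by omega, hkD, ?_, ?_, ?_, fun p hp => (hS.1 p hp).1, hS.2.trans ?_⟩
    · intro p hp
      rw [QQ, mem_filter, PW, mem_filter] at hp
      exact hp.1.2.1
    · intro p hp
      rw [QQ] at hp
      exact (mem_filter.1 hp).2
    · intro p hp hzp hpy
      by_cases h1 : p ∈ S
      · exact Or.inr (Or.inl h1)
      by_cases h2 : p = ps
      · exact Or.inr (Or.inr h2)
      left
      rw [QQ, mem_filter, PW, mem_filter, mem_Icc]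
      exact ⟨⟨⟨hp.one_lt.le, hpy⟩, hp, h1, h2⟩, hzp⟩
    · rw [div_le_div_iff₀ (by positivity) (by norm_num)]
      nlinarith
  have hlogy0 : 0 < Real.log (yy X) := by linarith
  have hmain := class_card_le hD hps q hq b5 r hr (2 * k / ((q.totient : ℝ) * Real.log (yy X)))
    (by positivity) (fun a ha => hx0 k b3 a ha (yy X) b6)
  refine hmain.trans ?_
  have t1 : ((Nat.log 2 k : ℝ) + 1) * 2 ^ (z + 1) * Real.sqrt k ≤
      (L / Real.log L) / (q.totient : ℝ) := by
    calc _ ≤ _ := b2
      _ ≤ (1 / (T * (q.totient : ℝ))) * (T * (L / Real.log L)) := by gcongr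
      _ = (L / Real.log L) / (q.totient : ℝ) := by field_simp
  have t2 : (DD T : ℝ) * (2 * k / ((q.totient : ℝ) * Real.log (yy X))) ≤
      (4 * DD T * T) * (L / Real.log L) / (q.totient : ℝ) := by
    calc (DD T : ℝ) * (2 * k / ((q.totient : ℝ) * Real.log (yy X)))
        ≤ (DD T : ℝ) * (2 * (T * L) / ((q.totient : ℝ) * (Real.log L / 2))) := by gcongr
      _ = (4 * DD T * T) * (L / Real.log L) / (q.totient : ℝ) := by field_simp; ring
  have t3 : (k : ℝ) * ∑ q ∈ S, (1 : ℝ) / q ≤ (L / Real.log L) / (q.totient : ℝ) := by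
    calc (k : ℝ) * ∑ q ∈ S, (1 : ℝ) / q ≤ (T * L) * (6 / (Real.log L) ^ 2) := by
          gcongr
          exact hS.2
      _ ≤ (L / Real.log L) / (q.totient : ℝ) := by
          rw [mul_div_assoc', div_div, div_le_div_iff₀ (by positivity) (by positivity)]
          have h1 : 6 * T * (q.totient : ℝ) ≤ Real.log L := by linarith
          calc T * L * 6 * (Real.log L * (q.totient : ℝ))
              = (6 * T * (q.totient : ℝ)) * (L * Real.log L) := by ring
            _ ≤ Real.log L * (L * Real.log L) := by gcongr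
            _ = L * (Real.log L) ^ 2 := by ring
  calc _ ≤ (L / Real.log L) / (q.totient : ℝ) + (4 * DD T * T) * (L / Real.log L) / (q.totient : ℝ) +
        (L / Real.log L) / (q.totient : ℝ) := add_le_add (add_le_add t1 t2) t3
    _ = CC T * (L / Real.log L) / (q.totient : ℝ) := by unfold CC; ring

end Pool.Agent.H339R2.CovM
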