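import Mathlib
import Pool.Agent.H378R2.Defs
import Pool.Agent.H339R2.CovC

open Finset Filter

namespace Pool.Agent.H339R2.CovM

open Pool.Agent.H378R2

lemma exists_class {K : ℕ} (t : Fin K → ℕ) (p : ℕ) (hp : K < p) : ∃ r, r < p ∧ ∀ j, t j % p ≠ r := by
  obtain ⟨r, h1, h2, _⟩ := step t ∅ p hp
  exact ⟨r, h1, h2⟩

/-- the sum over the primes above `M` -/
lemma sum_tail (M z : ℕ) (hM : 1 ≤ M) :
    ∑ p ∈ (Icc (M + 1) z).filter Nat.Prime, (1 : ℝ) / (p * ((p : ℝ) - 1)) ≤ 1 / M := by
  have h1 : ∑ p ∈ (Icc (M + 1) z).filter Nat.Prime, (1 : ℝ) / (p * ((p : ℝ) - 1)) ≤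
      ∑ p ∈ Icc (M + 1) z, (1 : ℝ) / (p * ((p : ℝ) - 1)) := by
    apply sum_le_sum_of_subset_of_nonneg (filter_subset _ _)
    intro p hp _
    rw [mem_Icc] at hp
    have : (1 : ℝ) ≤ p := by exact_mod_cast (by omega : 1 ≤ p)
    apply div_nonneg zero_le_one
    apply mul_nonneg <;> linarith
  refine h1.trans ?_
  have hM0 : (0 : ℝ) < M := by exact_mod_cast hM
  have h2 : ∀ n : ℕ, ∑ p ∈ Icc (M + 1) (M + n), (1 : ℝ) / (p * ((p : ℝ) - 1)) ≤ 1 / M - 1 / ((M + n : ℕ) : ℝ) := by
    intro n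
    induction n with
    | zero => simp
    | succ n ih =>
      rw [show M + (n + 1) = (M + n) + 1 by ring, sum_Icc_succ_top (by omega)]
      have h3 : (0 : ℝ) < ((M + n : ℕ) : ℝ) := by exact_mod_cast (by omega : 0 < M + n)
      have h4 : (1 : ℝ) / (((M + n + 1 : ℕ) : ℝ) * (((M + n + 1 : ℕ) : ℝ) - 1)) =
          1 / ((M + n : ℕ) : ℝ) - 1 / ((M + n + 1 : ℕ) : ℝ) := by
        have h5 : ((M + n + 1 : ℕ) : ℝ) = ((M + n : ℕ) : ℝ) + 1 := by push_cast; ring
        rw [h5]
        have h6 : ((M + n : ℕ) : ℝ) ≠ 0 := h3.ne'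
        have h7 : ((M + n : ℕ) : ℝ) + 1 ≠ 0 := by linarith
        rw [add_sub_cancel_right]
        field_simp
        ring
      rw [h4]
      linarith
  rcases le_or_gt M z with h | h
  · obtain ⟨n, rfl⟩ := Nat.exists_eq_add_of_le h
    refine (h2 n).trans ?_
    have : (0 : ℝ) ≤ 1 / ((M + n : ℕ) : ℝ) := by positivity
    linarith
  · rw [Icc_eq_empty (by omega), sum_empty]
    positivity

theorem cov_core (K : ℕ) : ∃ z1 : ℕ, K ≤ z1 ∧ ∀ T δ : ℝ, 1 ≤ T → 0 < δ → ∃ Z : ℕ, ∃ X0 : ℝ,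
    ∀ X : ℝ, X0 ≤ X → ∀ (ps : ℕ) (S : Finset ℕ), GoodP Z ps → GoodS X S → ∀ t : Fin K → ℕ,
    (∀ j, (t j).Prime ∧ yy X < t j ∧ t j ≡ 1 [MOD primorial z1]) →
    ∃ a0 : ℕ, (∀ j, (a0 + t j).Coprime (WW X S ps)) ∧
      (((range (⌊T * Real.log X⌋₊ + 1)).filter
        (fun s => (∀ j, s ≠ t j) ∧ (a0 + s).Coprime (WW X S ps))).card : ℝ) ≤
        δ * Real.log X / Real.log (Real.log X) := by
  classical
  refine ⟨max K 2, le_max_left _ _, ?_⟩
  intro T δ hT hδ
  set z1 := max K 2 with hz1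
  have hz1K : K ≤ z1 := le_max_left _ _
  have hz12 : 2 ≤ z1 := le_max_right _ _
  have hC0 := CC_pos T hT
  set C := CC T with hC
  obtain ⟨M0, hM0⟩ : ∃ M0 : ℕ, 2 * K * C / δ ≤ M0 := exists_nat_ge _
  set M := max M0 z1 with hM
  have hMz1 : z1 ≤ M := le_max_right _ _
  have hM1 : (0 : ℝ) < M := by exact_mod_cast (by omega : 0 < M)
  have hKM : K * C / M ≤ δ / 2 := by
    have h1 : 2 * K * C / δ ≤ M := hM0.trans (by exact_mod_cast le_max_left _ _)
    rw [div_le_iff₀ hδ] at h1
    rw [div_le_div_iff₀ hM1 (by norm_num)]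
    linarith
  obtain ⟨z, hzM, hzprod⟩ := prod_small M (δ / (2 * C)) (by positivity) M
  have hz1' : 1 ≤ z := by omega
  set Ts := (Icc (M + 1) z).filter Nat.Prime with hTs
  -- the counting bounds for the moduli `1` and the primes in `Ts`
  have hcnt : ∀ q : ℕ, ∃ X0 : ℝ, 1 ≤ q → ∀ X : ℝ, X0 ≤ X →
      ∀ (ps : ℕ) (S : Finset ℕ), (ps = 1 ∨ ps.Prime) → GoodS X S → ∀ r : ℕ, r.Coprime q →
      (((VV (QQ X S ps z) ⌊T * Real.log X⌋₊).filter (fun s => s % q = r % q)).card : ℝ) ≤
        C * (Real.log X / Real.log (Real.log X)) / (q.totient : ℝ) := by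
    intro q
    by_cases hq : 1 ≤ q
    · obtain ⟨X0, hX0⟩ := count T hT z q hz1' hq
      exact ⟨X0, fun _ => hX0⟩
    · exact ⟨0, fun h => absurd h hq⟩
  choose Xq hXq using hcnt
  have hlogtop : Tendsto Real.log atTop atTop := Real.tendsto_log_atTop
  have hloglog : Tendsto (fun X => Real.log (Real.log X)) atTop atTop := hlogtop.comp hlogtop
  have hytop : Tendsto (fun X : ℝ => yy X) atTop atTop :=
    tendsto_nat_floor_atTop.comp (hlogtop.atTop_div_const (by norm_num))
  have hz2top : Tendsto (fun X : ℝ => z2 X) atTop atTop :=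
    tendsto_nat_ceil_atTop.comp ((tendsto_pow_atTop (by norm_num)).comp hloglog)
  have hev : ∀ᶠ X : ℝ in atTop, (∀ q ∈ range (z + 1), Xq q ≤ X) ∧ z ≤ yy X ∧ z ≤ z2 X ∧
      1 ≤ Real.log (Real.log X) ∧ 1 ≤ Real.log X := by
    filter_upwards [(Filter.eventually_all_finset (range (z + 1))).2
        (fun q _ => eventually_ge_atTop (Xq q)), hytop.eventually_ge_atTop z,
      hz2top.eventually_ge_atTop z, hloglog.eventually_ge_atTop 1,
      hlogtop.eventually_ge_atTop 1] with X a1 a2 a3 a4 a5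
    exact ⟨a1, a2, a3, a4, a5⟩
  obtain ⟨X0, hX0⟩ := eventually_atTop.1 hev
  refine ⟨z, X0, ?_⟩
  intro X hX ps S hps hS t ht
  obtain ⟨b1, b2, b3, b4, b5⟩ := hX0 X hX
  set L := Real.log X with hL
  set N := ⌊T * L⌋₊ with hN
  have hps' : ps = 1 ∨ ps.Prime := by
    rcases hps with h | h
    · exact Or.inl h
    · exact Or.inr h.1
  have hLL : 0 < L / Real.log L := by positivity
  -- membership in PW
  have hPW : ∀ p, p.Prime → p ≤ z → p ∈ PW X S ps := by
    intro p hp hpz
    rw [PW, mem_filter, mem_Icc]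
    refine ⟨⟨hp.one_lt.le, by omega⟩, hp, ?_, ?_⟩
    · intro h
      have := (hS.1 p h).2.1
      omega
    · rintro rfl
      rcases hps with h | h
      · exact hp.one_lt.ne' h
      · omega
  set V := VV (QQ X S ps z) N with hV
  set c : ℝ := K * C * (L / Real.log L) with hc
  have hc0 : 0 ≤ c := by positivity
  have hVcard : (V.card : ℝ) ≤ C * (L / Real.log L) := by
    have h1 := hXq 1 le_rfl X (b1 1 (by rw [mem_range]; omega)) ps S hps' hS 1 (by simp)
    have h2 : V.filter (fun s => s % 1 = 1 % 1) = V := by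
      apply filter_true_of_mem
      intro s _
      omega
    rw [← hV, h2] at h1
    simpa using h1
  obtain ⟨b, hb1, hb2⟩ := greedyT t V c hc0 Ts (by
      intro p hp
      rw [hTs, mem_filter, mem_Icc] at hp
      exact ⟨by omega, hp.2.two_le⟩) (by
      intro p hp
      rw [hTs, mem_filter, mem_Icc] at hp
      obtain ⟨⟨hp1, hp2⟩, hpp⟩ := hp
      have h1 : ∀ j, (((V.filter (fun s => s % p = t j % p)).card : ℕ) : ℝ) ≤
          C * (L / Real.log L) / ((p : ℝ) - 1) := by
        intro j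
        have hcop : (t j).Coprime p := by
          rw [Nat.coprime_comm, hpp.coprime_iff_not_dvd]
          intro hd
          rcases (Nat.dvd_prime (ht j).1).1 hd with h2 | h2
          · exact hpp.ne_one h2
          · have := (ht j).2.1
            omega
        have h2 := hXq p hpp.one_lt.le X (b1 p (by rw [mem_range]; omega)) ps S hps' hS (t j) hcop
        rw [Nat.totient_prime hpp, Nat.cast_sub hpp.one_lt.le, Nat.cast_one] at h2
        exact h2
      have h2 : V.filter (fun s => ∃ j, s % p = t j % p) ⊆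
          univ.biUnion (fun j => V.filter (fun s => s % p = t j % p)) := by
        intro s hs
        rw [mem_filter] at hs
        obtain ⟨hs1, j, hj⟩ := hs
        rw [mem_biUnion]
        exact ⟨j, mem_univ _, mem_filter.2 ⟨hs1, hj⟩⟩
      calc (((V.filter (fun s => ∃ j, s % p = t j % p)).card : ℕ) : ℝ)
          ≤ ((∑ j : Fin K, (V.filter (fun s => s % p = t j % p)).card : ℕ) : ℝ) := by
            exact_mod_cast (card_le_card h2).trans card_biUnion_le
        _ = ∑ j : Fin K, (((V.filter (fun s => s % p = t j % p)).card : ℕ) : ℝ) := by push_cast; rfl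
        _ ≤ ∑ _j : Fin K, C * (L / Real.log L) / ((p : ℝ) - 1) := sum_le_sum (fun j _ => h1 j)
        _ = c / ((p : ℝ) - 1) := by
            rw [sum_const, card_univ, Fintype.card_fin, nsmul_eq_mul, hc]; ring)
  -- the classes
  have hrc : ∀ p : ℕ, ∃ r : ℕ, K < p → (∀ j, t j % p ≠ r % p) := by
    intro p
    by_cases hp : K < p
    · obtain ⟨r, h1, h2⟩ := exists_class t p hp
      refine ⟨r, fun _ j => ?_⟩
      rw [Nat.mod_eq_of_lt h1]
      exact h2 j
    · exact ⟨0, fun h => absurd h hp⟩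
  choose rc hrc using hrc
  set β : ℕ → ℕ := fun p => if p ≤ z1 ∨ z < p then 0 else if p ∈ Ts then b p else rc p with hβ
  have hPWp : ∀ p ∈ PW X S ps, p.Prime := by
    intro p hp
    rw [PW, mem_filter] at hp
    exact hp.2.1
  obtain ⟨a0, ha0⟩ := Nat.chineseRemainderOfFinset (fun p => p - β p % p) (fun p => p) (PW X S ps)
    (fun p hp => (hPWp p hp).ne_zero) (by
      intro p hp q hq hpq
      exact (Nat.coprime_primes (hPWp p hp) (hPWp q hq)).2 hpq)
  have hkey : ∀ p ∈ PW X S ps, ∀ s : ℕ, p ∣ a0 + s ↔ s % p = β p % p := by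
    intro p hp s
    have hp0 : 0 < p := (hPWp p hp).pos
    have h1 : a0 ≡ p - β p % p [MOD p] := ha0 p hp
    have h2 := Nat.mod_lt (β p) hp0
    have h3 : a0 + β p ≡ 0 [MOD p] := by
      calc a0 + β p ≡ (p - β p % p) + β p % p [MOD p] := h1.add (Nat.mod_modEq _ _).symm
        _ = p := by omega
        _ ≡ 0 [MOD p] := by show p % p = 0 % p; simp
    constructor
    · intro h
      have h4 : a0 + s ≡ a0 + β p [MOD p] := ((Nat.modEq_zero_iff_dvd).2 h).trans h3.symm
      exact Nat.ModEq.add_left_cancel' _ h4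
    · intro h
      have h4 : a0 + s ≡ a0 + β p [MOD p] := Nat.ModEq.add_left _ h
      exact (Nat.modEq_zero_iff_dvd).1 (h4.trans h3)
  have hcopW : ∀ n : ℕ, n.Coprime (WW X S ps) ↔ ∀ p ∈ PW X S ps, ¬ p ∣ n := by
    intro n
    rw [WW, Nat.coprime_prod_right_iff]
    constructor
    · intro h p hp hd
      have := h p hp
      rw [Nat.coprime_comm, (hPWp p hp).coprime_iff_not_dvd] at this
      exact this hd
    · intro h p hp
      rw [Nat.coprime_comm, (hPWp p hp).coprime_iff_not_dvd]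
      exact h p hp
  refine ⟨a0, ?_, ?_⟩
  · intro j
    rw [hcopW]
    intro p hp hd
    rw [hkey p hp] at hd
    have hpp := hPWp p hp
    have hpy : p ≤ yy X := by
      rw [PW, mem_filter, mem_Icc] at hp
      exact hp.1.2
    obtain ⟨ht1, ht2, ht3⟩ := ht j
    by_cases hc1 : p ≤ z1 ∨ z < p
    · have hβp : β p = 0 := by simp only [hβ, if_pos hc1]
      rw [hβp, Nat.zero_mod] at hd
      have hd' := Nat.dvd_of_mod_eq_zero hd
      rcases (Nat.dvd_prime ht1).1 hd' with h2 | h2
      · exact hpp.ne_one h2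
      · omega
    · by_cases hc2 : p ∈ Ts
      · have hβp : β p = b p := by simp only [hβ, if_neg hc1, if_pos hc2]
        rw [hβp] at hd
        exact hb1 p hc2 j hd
      · have hβp : β p = rc p := by simp only [hβ, if_neg hc1, if_neg hc2]
        rw [hβp] at hd
        exact hrc p (by omega) j hd
  · have hsub : (range (N + 1)).filter (fun s => (∀ j, s ≠ t j) ∧ (a0 + s).Coprime (WW X S ps)) ⊆
        V.filter (fun s => ∀ p ∈ Ts, ¬ s % p = b p % p) := by
      intro s hs
      rw [mem_filter, mem_range, hcopW] at hs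
      obtain ⟨hs1, _, hs3⟩ := hs
      have hs0 : 1 ≤ s := by
        by_contra hcon
        have h0 : s = 0 := by omega
        have h2 := hs3 2 (hPW 2 Nat.prime_two (by omega))
        rw [hkey 2 (hPW 2 Nat.prime_two (by omega))] at h2
        apply h2
        have hβp : β 2 = 0 := by simp only [hβ, if_pos (Or.inl hz12 : 2 ≤ z1 ∨ z < 2)]
        rw [hβp, h0]
      rw [mem_filter, hV, VV, mem_filter, mem_Icc]
      refine ⟨⟨⟨hs0, by omega⟩, ?_⟩, ?_⟩
      · intro p hp hd
        rw [QQ, mem_filter] at hp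
        apply hs3 p hp.1
        rw [hkey p hp.1]
        have hβp : β p = 0 := by simp only [hβ, if_pos (Or.inr hp.2 : p ≤ z1 ∨ z < p)]
        rw [hβp, Nat.zero_mod]
        exact Nat.mod_eq_zero_of_dvd hd
      · intro p hp hd
        have hp' := hp
        rw [hTs, mem_filter, mem_Icc] at hp'
        have hpW := hPW p hp'.2 hp'.1.2
        apply hs3 p hpW
        rw [hkey p hpW]
        have hβp : β p = b p := by
          simp only [hβ, if_pos hp]
          rw [if_neg (by omega)]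
        rw [hβp]
        exact hd
    have h1 : (((range (N + 1)).filter
        (fun s => (∀ j, s ≠ t j) ∧ (a0 + s).Coprime (WW X S ps))).card : ℝ) ≤
        ((V.filter (fun s => ∀ p ∈ Ts, ¬ s % p = b p % p)).card : ℝ) := by
      exact_mod_cast card_le_card hsub
    refine h1.trans (hb2.trans ?_)
    have h2 : (V.card : ℝ) * ∏ p ∈ Ts, (1 - 1 / (p : ℝ)) ≤ (δ / 2) * (L / Real.log L) := by
      calc (V.card : ℝ) * ∏ p ∈ Ts, (1 - 1 / (p : ℝ)) ≤ (V.card : ℝ) * (δ / (2 * C)) := by gcongr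
        _ ≤ (C * (L / Real.log L)) * (δ / (2 * C)) := by gcongr
        _ = (δ / 2) * (L / Real.log L) := by field_simp
    have h3 : ∑ p ∈ Ts, c / (p * ((p : ℝ) - 1)) ≤ (δ / 2) * (L / Real.log L) := by
      calc ∑ p ∈ Ts, c / (p * ((p : ℝ) - 1)) = c * ∑ p ∈ Ts, 1 / (p * ((p : ℝ) - 1)) := by
            rw [mul_sum]
            apply sum_congr rfl
            intro p _
            ring
        _ ≤ c * (1 / M) := by
            apply mul_le_mul_of_nonneg_left _ hc0
            exact sum_tail M z (by omega)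
        _ = (K * C / M) * (L / Real.log L) := by rw [hc]; ring
        _ ≤ (δ / 2) * (L / Real.log L) := by gcongr
    calc _ ≤ (δ / 2) * (L / Real.log L) + (δ / 2) * (L / Real.log L) := add_le_add h2 h3
      _ = δ * L / Real.log L := by ring

end Pool.Agent.H339R2.CovM
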