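import Mathlib
import Pool.Agent.H312R2.PG.Iface
import Pool.Agent.H339R2.CovD

namespace Pool.Agent.H339R2.CovM

open Pool.Agent.H312R2.PG

/-- (F2) of TEAM PG -/
theorem cov : Cov := by
  intro K
  obtain ⟨z1, hz1, h⟩ := cov_core K
  refine ⟨z1, hz1, ?_⟩
  intro T δ hT hδ
  obtain ⟨Z, X0, hX0⟩ := h T δ hT hδ
  refine ⟨Z, X0, ?_⟩
  intro X hX ps S hps hS t ht
  exact hX0 X hX ps S hps hS t (fun j => ⟨(ht.2 j).1, (ht.2 j).2.1, (ht.2 j).2.2.2⟩)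

end Pool.Agent.H339R2.CovM
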